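import Pool.Agent.J4.H19.LP.Ex
import Pool.Agent.J4.H19.LQ.Main

/-!
# Finite generation of the adjoint rings of log canonical pairs on models of abelian covers of
# projective space branched along log canonical hypersurfaces

Let `F k`, `k = 0, ..., n`, be forms of degrees `d k` in `n + 1` variables without a common zero such
that the pair of the projective `n`-space and the sum of the hypersurfaces `F k = 0` is log canonical
(for instance, products of the members of `n + 1` parts of a finite family of hypersurfaces with
normal crossings), and let `K` be the function field of an abelian cover of the projective space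
which is branched only along these hypersurfaces: `K` is generated by the affine coordinates
`x (b + 1) / x 0` and by roots `z j`, `z j ^ (m j) = ∏ k, (F k (x) / x 0 ^ (d k)) ^ (a j k)`, where
`m j` divides `∑ k, a j k * d k`.

A prime divisor `P` over the models of `K` has the multiplicities `mult k` along the hypersurfaces
`F k = 0`. It is a *log place* (`IsLogPlace`) if the canonical form of the projective space has the
smallest order at `P` which is possible for its multiplicities. If they are not all zero, this says
that `P` lies over a log canonical place of the pair of the projective space and the sum of the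
hypersurfaces; if they are zero, it says that the centre of `P` on the projective space is a divisor.

Let `Y` be a normal projective variety with function field `K`, and let `(Y, Δ 1), ..., (Y, Δ s)` be
log canonical pairs, where the `Δ i` are effective `ℚ`-divisors such that

1. the log discrepancy of `(Y, Δ i)` is at least `1` along the log places with zero multiplicities,
2. `Δ i` is uniform: if `P` and `Q` are log places, `P` is a prime divisor of `Y` and the
   multiplicities of `P` are nonzero and `g ≥ 1` times the ones of `Q`, then the log discrepancy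
   `1 - Δ i P` of `P` is at most `g` times the log discrepancy of `Q` (with respect to `(Y, Δ i)`).

(Examples: `Δ i = 0` and `Y` with canonical singularities; `Y` finite over a toric modification of the
target of the map of the projective space to itself given by powers of the `F k`, and `Δ i` supported
on the log places with nonzero multiplicities, with coefficients in `[0, 1]` which depend only on the
set of the `k` with `mult k ≠ 0`. The two conditions are preserved by convex combinations.)

**Theorem.** For all positive integers `ρ 1, ..., ρ s` the adjoint ring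
`⨁_{m ∈ ℕ^s} H⁰ (Y, ∑ i, m i ρ i (K_Y + Δ i))` is finitely generated: there are finitely many
homogeneous elements such that every section of `∑ i, m i ρ i (K_Y + Δ i)` is a linear combination of
products of degree `m` of these elements.

For `s = 1` this is the log canonical ring. The finite generation of the log canonical rings of log
canonical pairs is equivalent to the existence of the log canonical models, which is one of the main
open parts of the minimal model program for log canonical pairs. For klt pairs it is a theorem of
Birkar, Cascini, Hacon and McKernan; the adjoint rings are finitely generated if the boundaries are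
also big (Cascini–Lazić), and this implies that there are finitely many ample models of the
`K_Y + Δ`, if `Δ` varies between the `Δ i`. Here the pairs are log canonical, the boundaries need not be
big, and `K_Y + Δ i` may have any Kodaira dimension.

Proof. The forms `∏ k, F k ^ (u k - M) * Ω ^ M`, where `M = ∑ i, m i ρ i`, are sections of
`∑ i, m i ρ i (K_Y + Δ i)` if `∑ k, d k * u k = M (∑ k, d k - n - 1)` and
`⟨v, u⟩ ≥ ∑ i, m i ρ i A i v` for all `v ≠ 0`, where `A i v` is the minimum of `1` and of the numbers
`g a`, where `a` is the log discrepancy of `(Y, Δ i)` along a log place `Q` and `g` times the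
multiplicities of `Q` are `v`. Finitely many of these inequalities suffice (Dickson's lemma), so that
these `(m, u)` are the lattice points of a rational polyhedral cone, and the algebra `A` generated by
the forms is finitely generated. Traces to the fields of the radicals and of the projective space show
that there are finitely many elements `b j` of a finite extension of `K` such that every section is a
linear combination of products of the `b j` with monomials `(m, u)` which satisfy the inequalities up
to a constant which does not depend on `m`. The lattice points with bounded distance from a rational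
polyhedral cone are in finitely many translates of the set of the lattice points of the cone. So the
adjoint ring is contained in a finitely generated `A`-module, and `A` is Noetherian.
-/

set_option autoImplicit false

open FF MvPolynomial Pool.Agent.W602.GT

namespace Pool.Agent.Results.MP_c1e25c_ag.AdjointRings

/-- The affine coordinates of the projective space. -/
noncomputable def affine {n : ℕ} {K : Type} [Field K] (x : Fin (n + 1) → K) (b : Fin n) : K :=
  x b.succ / x 0

/-- The value of the form `Ω = ∑ i, ± x i * d x 0 ∧ ... ∧ d x n` (without `d x i`) on vector fields: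
the determinant with the rows `x`, `D 0 x`, ..., `D (n - 1) x`. -/
noncomputable def form {n : ℕ} {K : Type} [Field K] [Algebra ℂ K] (x : Fin (n + 1) → K)
    (D : Fin n → Derivation ℂ K K) : K :=
  (Matrix.of fun i j : Fin (n + 1) => (Fin.cases (x j) (fun l => D l (x j)) i : K)).det

/-- The pair of the projective `n`-space and the sum of the hypersurfaces `F k = 0` is log
canonical: for all prime divisors `P` over the projective space (divisorial places `P` of its function
field `K`), and homogeneous coordinates `x` which are regular and not all zero at `P`, the canonical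
form of the projective space vanishes along `P` at least to the order `∑ k, P.ord (F k (x)) - 1`. -/
def LogCanonicalSum {n : ℕ} (F : Fin (n + 1) → MvPolynomial (Fin (n + 1)) ℂ) : Prop :=
  ∀ (K : Type) [Field K] [Algebra ℂ K] (x : Fin (n + 1) → K), x 0 ≠ 0 →
    IsTranscendenceBasis ℂ (affine x) → IntermediateField.adjoin ℂ (Set.range (affine x)) = ⊤ →
    ∀ P : Place ℂ K, Divisorial n P → (∀ l, 0 ≤ P.ord (x l)) → (∃ l, P.ord (x l) = 0) →
    ∀ D : Fin n → Derivation ℂ K K, (∀ c, DerReg P (D c)) →
      form x D = 0 ∨ ∑ k, P.ord (aeval x (F k)) - 1 ≤ P.ord (form x D)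

/-- The hypersurfaces `F k = 0` have no common point. -/
def NoCommonPoint {n : ℕ} (F : Fin (n + 1) → MvPolynomial (Fin (n + 1)) ℂ) : Prop :=
  ∀ x : Fin (n + 1) → ℂ, x ≠ 0 → ∃ k, eval x (F k) ≠ 0

section places

variable {n : ℕ} {K : Type} [Field K] [Algebra ℂ K]

/-- The smallest order of the homogeneous coordinates at `P`. -/
noncomputable def minOrder (x : Fin (n + 1) → K) (P : Place ℂ K) : ℤ :=
  Finset.univ.inf' Finset.univ_nonempty fun l => P.ord (x l)

/-- The multiplicity of the divisor `P` along the hypersurface `F k = 0`: the order of `F k (x)`, if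
the homogeneous coordinates `x` are chosen such that their smallest order is zero. -/
noncomputable def mult (F : Fin (n + 1) → MvPolynomial (Fin (n + 1)) ℂ) (d : Fin (n + 1) → ℕ)
    (x : Fin (n + 1) → K) (P : Place ℂ K) (k : Fin (n + 1)) : ℤ :=
  P.ord (aeval x (F k)) - d k * minOrder x P

/-- `P` is a log place: there are vector fields which are regular at `P` and on which the canonical
form `Ω` of the projective space has the smallest order which is possible for the given
multiplicities (if the coordinates are chosen such that `minOrder x P = 0`: the sum of the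
multiplicities minus one, and zero if the multiplicities are zero). -/
def IsLogPlace (F : Fin (n + 1) → MvPolynomial (Fin (n + 1)) ℂ) (d : Fin (n + 1) → ℕ)
    (x : Fin (n + 1) → K) (P : Place ℂ K) : Prop :=
  ∃ E : Fin n → Derivation ℂ K K, (∀ i, DerReg P (E i)) ∧ form x E ≠ 0 ∧
    P.ord (form x E) + (if ∀ k, mult F d x P k = 0 then 0 else 1) ≤
      (n + 1) * minOrder x P + ∑ k, mult F d x P k

end places

section models

variable {K : Type} [Field K] [Algebra ℂ K] {N : ℕ}

/-- The coordinate ring of the affine chart `y j ≠ 0` of the projective variety with generic point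
`y`. -/
def chart (y : Fin (N + 1) → K) (j : Fin (N + 1)) : Subalgebra ℂ K :=
  Algebra.adjoin ℂ (Set.range fun i => y i / y j)

/-- `y` is the generic point, in homogeneous coordinates, of a normal projective variety `Y` in the
projective `N`-space with function field `K`. -/
def NormalModel (y : Fin (N + 1) → K) : Prop :=
  (∃ j, y j ≠ 0) ∧
  (∀ j, y j ≠ 0 → IntermediateField.adjoin ℂ (Set.range fun i => y i / y j) = ⊤) ∧
  ∀ j, y j ≠ 0 → IsIntegrallyClosed (chart y j)

/-- The centre of the place `P` on `Y` is in the chart `y j ≠ 0`. -/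
def Centred (y : Fin (N + 1) → K) (j : Fin (N + 1)) (P : Place ℂ K) : Prop :=
  y j ≠ 0 ∧ ∀ i, P.Reg (y i / y j)

/-- The local ring of `Y` at the centre of the place `P`: the quotients `a / b` of elements of the
coordinate ring of a chart which contains the centre, such that `b` is not zero at the centre. -/
def localRing (y : Fin (N + 1) → K) (P : Place ℂ K) : Set K :=
  {f | ∃ j, Centred y j P ∧ ∃ a ∈ chart y j, ∃ b ∈ chart y j, b ≠ 0 ∧ P.ord b = 0 ∧ f * b = a}

/-- `P` is a prime divisor on `Y`: the valuation ring of `P` is the local ring of `Y` at the centre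
of `P`. -/
def IsPrimeDivisor (y : Fin (N + 1) → K) (P : Place ℂ K) : Prop :=
  ∀ f, P.Reg f → f ∈ localRing y P

/-- The prime divisor `P` of `Y` contains the centre of the place `Q` on `Y`. -/
def Through (y : Fin (N + 1) → K) (P Q : Place ℂ K) : Prop :=
  ∀ f ∈ localRing y Q, P.Reg f

/-- The order of the form `ω` along `P` is at least `c`: on vector fields which are regular at `P`
its values have order at least `c`. -/
def OrdGe {n : ℕ} (P : Place ℂ K) (ω : (Fin n → Derivation ℂ K K) → K) (c : ℚ) : Prop :=
  ∀ E : Fin n → Derivation ℂ K K, (∀ i, DerReg P (E i)) → ω E = 0 ∨ c ≤ P.ord (ω E)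

/-- The order of the form `ω` along `P` is `c`. -/
def OrdEq {n : ℕ} (P : Place ℂ K) (ω : (Fin n → Derivation ℂ K K) → K) (c : ℚ) : Prop :=
  OrdGe P ω c ∧ ∃ E : Fin n → Derivation ℂ K K, (∀ i, DerReg P (E i)) ∧ ω E ≠ 0 ∧ P.ord (ω E) = c

/-- `Δ` is an effective `ℚ`-divisor on `Y`; `Δ P` is the coefficient of the prime divisor `P` (the
values of `Δ` at the other places are irrelevant). -/
def Effective (y : Fin (N + 1) → K) (Δ : Place ℂ K → ℚ) : Prop :=
  (∀ P, IsPrimeDivisor y P → 0 ≤ Δ P) ∧ {P | IsPrimeDivisor y P ∧ Δ P ≠ 0}.Finite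

/-- The `r`-canonical form `η` generates `r (K_Y + Δ)` at the centre of `Q`: its order is `- r Δ P`
along all prime divisors `P` of `Y` through this centre. -/
def GeneratesAt {n : ℕ} (y : Fin (N + 1) → K) (Δ : Place ℂ K → ℚ) (r : ℕ)
    (η : (Fin n → Derivation ℂ K K) → K) (Q : Place ℂ K) : Prop :=
  IsPluri r η ∧ ∀ P, IsPrimeDivisor y P → Through y P Q → OrdEq P η (-(r * Δ P))

/-- The log discrepancy of `(Y, Δ)` along `Q` is `a`: a generator of `r (K_Y + Δ)` at the centre of
`Q`, `r ≥ 1`, has order `r (a - 1)` along `Q`. -/
def LogDiscrepancy (y : Fin (N + 1) → K) (n : ℕ) (Δ : Place ℂ K → ℚ) (Q : Place ℂ K) (a : ℚ) :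
    Prop :=
  ∃ r : ℕ, 0 < r ∧ ∃ η : (Fin n → Derivation ℂ K K) → K, GeneratesAt y Δ r η Q ∧
    OrdEq Q η (r * (a - 1))

/-- The pair `(Y, Δ)` is log canonical, `n` being the dimension of `Y`: for some `r ≥ 1` the divisor
`r (K_Y + Δ)` has a generator at the centre of every prime divisor `Q` over `Y`, with order at least
`- r` along `Q`. -/
def LogCanonical (y : Fin (N + 1) → K) (n : ℕ) (Δ : Place ℂ K → ℚ) : Prop :=
  ∃ r : ℕ, 0 < r ∧ ∀ Q : Place ℂ K, Divisorial n Q →
    ∃ η : (Fin n → Derivation ℂ K K) → K, GeneratesAt y Δ r η Q ∧ OrdGe Q η (-r)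

/-- `ω` is a section of `∑ i, m i ρ i (K_Y + Δ i)`: an `M`-canonical form, `M = ∑ i, ρ i m i`, with
order at least `- ∑ i, ρ i m i Δ i P` along the prime divisors `P` of `Y`. -/
def IsSection {n s : ℕ} (y : Fin (N + 1) → K) (ρ : Fin s → ℕ) (Δ : Fin s → Place ℂ K → ℚ)
    (m : Fin s → ℕ) (ω : (Fin n → Derivation ℂ K K) → K) : Prop :=
  IsPluri (∑ i, ρ i * m i) ω ∧
    ∀ P, IsPrimeDivisor y P → OrdGe P ω (-(∑ i, (ρ i * m i : ℚ) * Δ i P))

/-- The adjoint ring `⨁_m H⁰ (Y, ∑ i, m i ρ i (K_Y + Δ i))` is finitely generated: there are finitely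
many sections `σ j` of degrees `e j` such that every section of degree `m` is a linear combination of
the products `∏ j, σ j ^ c j` of degree `∑ j, c j • e j = m`. -/
def FinitelyGenerated {s : ℕ} (y : Fin (N + 1) → K) (n : ℕ) (ρ : Fin s → ℕ)
    (Δ : Fin s → Place ℂ K → ℚ) : Prop :=
  ∃ (t : ℕ) (e : Fin t → Fin s → ℕ) (σ : Fin t → (Fin n → Derivation ℂ K K) → K),
    (∀ j, IsSection y ρ Δ (e j) (σ j)) ∧ ∀ m ω, IsSection y ρ Δ m ω →
      ω ∈ Submodule.span ℂ {τ | ∃ c : Fin t → ℕ, ∑ j, c j • e j = m ∧
        τ = fun E => ∏ j, σ j E ^ c j}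

end models

/-- **Finite generation of adjoint rings.** Let `K` be the function field of an abelian cover of the
projective `n`-space which is branched along `n + 1` hypersurfaces `F k = 0` of degrees `d k`, without a
common point and with a log canonical sum, let `Y` be a normal projective variety with function field
`K`, and let `(Y, Δ i)` be log canonical pairs, `Δ i` an effective `ℚ`-divisor, with log discrepancy at
least `1` along the log places with zero multiplicities, and such that the log discrepancy
`1 - Δ i P` of a prime divisor `P` of `Y` is at most `g` times the log discrepancy along `Q`, if `P` and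
`Q` are log places and the multiplicities of `P` are not zero and `g` times those of `Q`. Then the
adjoint rings of the `K_Y + Δ i` are finitely generated. -/
theorem result (n R : ℕ) (hn : 1 ≤ n) (d : Fin (n + 1) → ℕ) (hd : ∀ k, 1 ≤ d k)
    (F : Fin (n + 1) → MvPolynomial (Fin (n + 1)) ℂ) (hF0 : ∀ k, F k ≠ 0)
    (hF : ∀ k, (F k).IsHomogeneous (d k)) (hN : NoCommonPoint F) (hL : LogCanonicalSum F)
    (m : Fin R → ℕ) (hm : ∀ j, 1 ≤ m j) (a : Fin R → Fin (n + 1) → ℕ)
    (hdiv : ∀ j, m j ∣ ∑ k, a j k * d k)
    (K : Type) [Field K] [Algebra ℂ K] (x : Fin (n + 1) → K) (hx0 : x 0 ≠ 0)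
    (hbas : IsTranscendenceBasis ℂ (affine x)) (z : Fin R → K)
    (hz : ∀ j, z j ^ m j = ∏ k, (aeval x (F k) / x 0 ^ d k) ^ a j k)
    (hgen : IntermediateField.adjoin ℂ (Set.range (affine x) ∪ Set.range z) = ⊤)
    (N : ℕ) (y : Fin (N + 1) → K) (hy : NormalModel y) (s : ℕ) (Δ : Fin s → Place ℂ K → ℚ)
    (hΔ : ∀ i, Effective y (Δ i)) (hlc : ∀ i, LogCanonical y n (Δ i))
    (h1 : ∀ i, ∀ Q, Divisorial n Q → IsLogPlace F d x Q → (∀ k, mult F d x Q k = 0) →
      ∀ b, LogDiscrepancy y n (Δ i) Q b → 1 ≤ b)
    (h2 : ∀ i, ∀ P, IsPrimeDivisor y P → IsLogPlace F d x P → (∃ k, mult F d x P k ≠ 0) →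
      ∀ Q, Divisorial n Q → IsLogPlace F d x Q → ∀ g : ℕ, 1 ≤ g →
      (∀ k, mult F d x P k = g * mult F d x Q k) →
      ∀ b, LogDiscrepancy y n (Δ i) Q b → 1 - Δ i P ≤ g * b)
    (ρ : Fin s → ℕ) (hρ : ∀ i, 1 ≤ ρ i) : FinitelyGenerated y n ρ Δ := by
  obtain ⟨e, rfl⟩ : ∃ e, n = e + 1 := ⟨n - 1, by omega⟩
  have hy' : Pool.Agent.Y172.NormalModel y := ⟨hy.1, hy.2.1, hy.2.2⟩
  have hbas' : IsTranscendenceBasis ℂ (affine x) := hbas
  have hn' : Algebra.trdeg ℂ K = ((e + 1 : ℕ) : Cardinal) := by
    rw [← hbas.cardinalMk_eq_trdeg, Cardinal.mk_fin]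
  obtain ⟨D0, hD0⟩ := Pool.Agent.W602.GT.exists_dual hbas'
  have hD : ∀ i j, D0 i (affine x j) = if i = j then 1 else 0 := by
    intro i j
    have h3 := congrFun (congrFun hD0 i) j
    rwa [Matrix.of_apply, Matrix.one_apply] at h3
  have hPr : ∀ i, Pool.Agent.J4.H19.LC.PrX F d x y (Δ i) := by
    intro i
    obtain ⟨r, hr, hlc⟩ := hlc i
    have hlc' : Pool.Agent.Y172.LogCanonical y (e + 1) (Δ i) := by
      intro Q hQ
      obtain ⟨η, h3, h4⟩ := hlc Q hQ
      exact ⟨r, hr, η, h3.1, h3.2, h4⟩
    refine ⟨?_, ?_, ?_, ?_, ?_⟩
    · intro Q hQ _ r b hr hb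
      exact Pool.Agent.J4.H19.LC.ld_lc hy' hn' hbas' hD hr hQ hb hlc'
    · intro Q hQ hQL hQ0 r b hr hb
      obtain ⟨η, h3, h4, h5⟩ := hb
      exact h1 i Q hQ hQL hQ0 b ⟨r, hr, η, ⟨h3, h4⟩, h5⟩
    · intro P hP hPL hP0 Q hQ hQL g hg hPQ r b hr hb
      obtain ⟨η, h3, h4, h5⟩ := hb
      exact h2 i P hP hPL hP0 Q hQ hQL g hg hPQ b ⟨r, hr, η, ⟨h3, h4⟩, h5⟩
    · exact fun P hP _ => (hΔ i).1 P hP
    · refine ⟨1, fun P hP => ?_⟩
      have h3 := (hΔ i).1 P hP
      push_cast
      linarith
  have hCar : ∀ i, ∃ r : ℕ, 0 < r ∧ ∀ Q, Divisorial (e + 1) Q →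
      ∃ b, Pool.Agent.J4.H19.LC.HasLD y (e + 1) (Δ i) r Q b := by
    intro i
    obtain ⟨r, hr, hlc⟩ := hlc i
    refine ⟨r, hr, fun Q hQ => ?_⟩
    obtain ⟨η, h3, h4⟩ := hlc Q hQ
    exact Pool.Agent.J4.H19.LC.ld_exists hy' hn' hbas' hD hr hQ h3.1 h3.2
  exact Pool.Agent.J4.H19.LC.main_fg hx0 hbas hd hF hF0 hN hL hm hz hdiv hgen hy' hρ hPr hCar

end Pool.Agent.Results.MP_c1e25c_ag.AdjointRings
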