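import Pool.Agent.J4.H19.LP.Ex

/-!
# Zariski decompositions with semiample positive part, and so minimal models, for log canonical
# pairs on models of abelian covers of projective space branched along log canonical hypersurfaces

Let `F k`, `k = 0, ..., n`, be forms of degrees `d k` in `n + 1` variables without a common zero such
that the pair of the projective `n`-space and the sum of the hypersurfaces `F k = 0` is log canonical
(for instance, products of the members of `n + 1` parts of a finite family of hypersurfaces with
normal crossings), and let `K` be the function field of an abelian cover of the projective space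
which is branched only along these hypersurfaces: `K` is generated by the affine coordinates
`x (b + 1) / x 0` and by roots `z j`, `z j ^ (m j) = ∏ k, (F k (x) / x 0 ^ (d k)) ^ (a j k)`, where
`m j` divides `∑ k, a j k * d k`.

A prime divisor `P` over the models of `K` has the multiplicities `mult k` along the hypersurfaces
`F k = 0`. It is a *log place* (`IsLogPlace`) if the canonical form of the projective space has the
smallest order at `P` which is possible for its multiplicities. If they are not all zero, this says
that `P` lies over a log canonical place of the pair of the projective space and the sum of the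
hypersurfaces; if they are zero, it says that the centre of `P` on the projective space is a divisor.

Let `(Y, Δ)` be a log canonical pair, `Y` a normal projective variety with function field `K` and `Δ`
an effective `ℚ`-divisor, such that

1. the log discrepancy of `(Y, Δ)` is at least `1` along the log places with zero multiplicities, and
2. `Δ` is uniform: if `P` and `Q` are log places, `P` is a prime divisor of `Y` and the
   multiplicities of `P` are nonzero and `g ≥ 1` times the ones of `Q`, then the log discrepancy
   `1 - Δ P` of `P` is at most `g` times the log discrepancy of `Q`.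

(Examples: `Δ = 0` and `Y` with canonical singularities; `Y` finite over a toric modification of the
target of the map of the projective space to itself given by powers of the `F k`, and `Δ` supported on
the log places with nonzero multiplicities, with coefficients in `[0, 1]` which depend only on the set
of the `k` with `mult k ≠ 0`.)

**Theorem.** If `K_Y + Δ` is pseudo-effective, then for some `T ≥ 1` there are finitely many nonzero
sections `s i` of `T (K_Y + Δ)` such that for every prime divisor `Q` over `Y` one of them, `s i`, has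
asymptotically the smallest order at `Q` among all sections of `m (K_Y + Δ) + j H`, `H` being a
hyperplane section: there is a constant `C` with `m ord_Q (s i) ≤ T ord_Q (ω) + C (j + 1)` for all
`m, j ≥ 0` and all sections `ω ≠ 0` of `m (K_Y + Δ) + j H`.

Thus the order of `s i` as a section of `T (K_Y + Δ)` at `Q`, divided by `T`, is the asymptotic order
`σ_Q (K_Y + Δ)` of Nakayama, for all prime divisors `Q` over `Y` at the same time. If `Y' → Y` is a
birational morphism such that the movable part `M` of the linear system of the `s i` on `Y'` has no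
base points, then `M / T` is the positive part of the Nakayama–Zariski decomposition of the pullback
of `K_Y + Δ` to `Y'`, and it is semiample. By a theorem of Birkar and Hu an lc pair whose log canonical
divisor has birationally a Nakayama–Zariski decomposition with nef positive part has a log minimal
model; so these pairs have good log minimal models. In particular, `K_Y + Δ` is pseudo-effective only
if a positive multiple of it is effective.

For `Δ = 0` and `Y` smooth this is `ZariskiDecomposition`, with an explicit `T`.

Proof. Let `A v` be the minimum of `1` and of the numbers `g a`, where `a` is the log discrepancy of a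
log place `Q` and `g` times the multiplicities of `Q` are `v`. The polytope `Π` of the vectors `y` with
`∑ k, d k * y k = ∑ k, d k - n - 1` and `⟨v, y⟩ ≥ A v` for all `v ≠ 0` is defined by finitely many of
these inequalities (Dickson's lemma). The forms `∏ k, F k ^ (T y k - T) * Ω ^ T` are sections of
`T (K_Y + Δ)` for all `y` in `Π`. Conversely, traces to the fields of the radicals and of the
projective space show that the polytope is not empty if `K_Y + Δ` is pseudo-effective, and that for
all divisors `Q` over `Y` the sections of `m (K_Y + Δ) + j H` have order at least `m c - O (j + 1)`,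
if `T c` is the smallest order of the forms above, which is attained at a vertex of `Π`.
-/

set_option autoImplicit false

open FF MvPolynomial Pool.Agent.W602.GT

namespace Pool.Agent.Results.MP_c1e25c_ag.LogPairDecomposition

/-- The affine coordinates of the projective space. -/
noncomputable def affine {n : ℕ} {K : Type} [Field K] (x : Fin (n + 1) → K) (b : Fin n) : K :=
  x b.succ / x 0

/-- The value of the form `Ω = ∑ i, ± x i * d x 0 ∧ ... ∧ d x n` (without `d x i`) on vector fields:
the determinant with the rows `x`, `D 0 x`, ..., `D (n - 1) x`. -/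
noncomputable def form {n : ℕ} {K : Type} [Field K] [Algebra ℂ K] (x : Fin (n + 1) → K)
    (D : Fin n → Derivation ℂ K K) : K :=
  (Matrix.of fun i j : Fin (n + 1) => (Fin.cases (x j) (fun l => D l (x j)) i : K)).det

/-- The pair of the projective `n`-space and the sum of the hypersurfaces `F k = 0` is log
canonical: for all prime divisors `P` over the projective space (divisorial places `P` of its function
field `K`), and homogeneous coordinates `x` which are regular and not all zero at `P`, the canonical
form of the projective space vanishes along `P` at least to the order `∑ k, P.ord (F k (x)) - 1`. -/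
def LogCanonicalSum {n : ℕ} (F : Fin (n + 1) → MvPolynomial (Fin (n + 1)) ℂ) : Prop :=
  ∀ (K : Type) [Field K] [Algebra ℂ K] (x : Fin (n + 1) → K), x 0 ≠ 0 →
    IsTranscendenceBasis ℂ (affine x) → IntermediateField.adjoin ℂ (Set.range (affine x)) = ⊤ →
    ∀ P : Place ℂ K, Divisorial n P → (∀ l, 0 ≤ P.ord (x l)) → (∃ l, P.ord (x l) = 0) →
    ∀ D : Fin n → Derivation ℂ K K, (∀ c, DerReg P (D c)) →
      form x D = 0 ∨ ∑ k, P.ord (aeval x (F k)) - 1 ≤ P.ord (form x D)

/-- The hypersurfaces `F k = 0` have no common point. -/
def NoCommonPoint {n : ℕ} (F : Fin (n + 1) → MvPolynomial (Fin (n + 1)) ℂ) : Prop :=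
  ∀ x : Fin (n + 1) → ℂ, x ≠ 0 → ∃ k, eval x (F k) ≠ 0

section places

variable {n : ℕ} {K : Type} [Field K] [Algebra ℂ K]

/-- The smallest order of the homogeneous coordinates at `P`. -/
noncomputable def minOrder (x : Fin (n + 1) → K) (P : Place ℂ K) : ℤ :=
  Finset.univ.inf' Finset.univ_nonempty fun l => P.ord (x l)

/-- The multiplicity of the divisor `P` along the hypersurface `F k = 0`: the order of `F k (x)`, if
the homogeneous coordinates `x` are chosen such that their smallest order is zero. -/
noncomputable def mult (F : Fin (n + 1) → MvPolynomial (Fin (n + 1)) ℂ) (d : Fin (n + 1) → ℕ)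
    (x : Fin (n + 1) → K) (P : Place ℂ K) (k : Fin (n + 1)) : ℤ :=
  P.ord (aeval x (F k)) - d k * minOrder x P

/-- `P` is a log place: there are vector fields which are regular at `P` and on which the canonical
form `Ω` of the projective space has the smallest order which is possible for the given
multiplicities (if the coordinates are chosen such that `minOrder x P = 0`: the sum of the
multiplicities minus one, and zero if the multiplicities are zero). -/
def IsLogPlace (F : Fin (n + 1) → MvPolynomial (Fin (n + 1)) ℂ) (d : Fin (n + 1) → ℕ)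
    (x : Fin (n + 1) → K) (P : Place ℂ K) : Prop :=
  ∃ E : Fin n → Derivation ℂ K K, (∀ i, DerReg P (E i)) ∧ form x E ≠ 0 ∧
    P.ord (form x E) + (if ∀ k, mult F d x P k = 0 then 0 else 1) ≤
      (n + 1) * minOrder x P + ∑ k, mult F d x P k

end places

section models

variable {K : Type} [Field K] [Algebra ℂ K] {N : ℕ}

/-- The coordinate ring of the affine chart `y j ≠ 0` of the projective variety with generic point
`y`. -/
def chart (y : Fin (N + 1) → K) (j : Fin (N + 1)) : Subalgebra ℂ K :=
  Algebra.adjoin ℂ (Set.range fun i => y i / y j)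

/-- `y` is the generic point, in homogeneous coordinates, of a normal projective variety `Y` in the
projective `N`-space with function field `K`. -/
def NormalModel (y : Fin (N + 1) → K) : Prop :=
  (∃ j, y j ≠ 0) ∧
  (∀ j, y j ≠ 0 → IntermediateField.adjoin ℂ (Set.range fun i => y i / y j) = ⊤) ∧
  ∀ j, y j ≠ 0 → IsIntegrallyClosed (chart y j)

/-- The centre of the place `P` on `Y` is in the chart `y j ≠ 0`. -/
def Centred (y : Fin (N + 1) → K) (j : Fin (N + 1)) (P : Place ℂ K) : Prop :=
  y j ≠ 0 ∧ ∀ i, P.Reg (y i / y j)

/-- The local ring of `Y` at the centre of the place `P`: the quotients `a / b` of elements of the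
coordinate ring of a chart which contains the centre, such that `b` is not zero at the centre. -/
def localRing (y : Fin (N + 1) → K) (P : Place ℂ K) : Set K :=
  {f | ∃ j, Centred y j P ∧ ∃ a ∈ chart y j, ∃ b ∈ chart y j, b ≠ 0 ∧ P.ord b = 0 ∧ f * b = a}

/-- `P` is a prime divisor on `Y`: the valuation ring of `P` is the local ring of `Y` at the centre
of `P`. -/
def IsPrimeDivisor (y : Fin (N + 1) → K) (P : Place ℂ K) : Prop :=
  ∀ f, P.Reg f → f ∈ localRing y P

/-- The prime divisor `P` of `Y` contains the centre of the place `Q` on `Y`. -/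
def Through (y : Fin (N + 1) → K) (P Q : Place ℂ K) : Prop :=
  ∀ f ∈ localRing y Q, P.Reg f

/-- The order of the form `ω` along `P` is at least `c`: on vector fields which are regular at `P`
its values have order at least `c`. -/
def OrdGe {n : ℕ} (P : Place ℂ K) (ω : (Fin n → Derivation ℂ K K) → K) (c : ℚ) : Prop :=
  ∀ E : Fin n → Derivation ℂ K K, (∀ i, DerReg P (E i)) → ω E = 0 ∨ c ≤ P.ord (ω E)

/-- The order of the form `ω` along `P` is `c`. -/
def OrdEq {n : ℕ} (P : Place ℂ K) (ω : (Fin n → Derivation ℂ K K) → K) (c : ℚ) : Prop :=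
  OrdGe P ω c ∧ ∃ E : Fin n → Derivation ℂ K K, (∀ i, DerReg P (E i)) ∧ ω E ≠ 0 ∧ P.ord (ω E) = c

/-- `Δ` is an effective `ℚ`-divisor on `Y`; `Δ P` is the coefficient of the prime divisor `P` (the
values of `Δ` at the other places are irrelevant). -/
def Effective (y : Fin (N + 1) → K) (Δ : Place ℂ K → ℚ) : Prop :=
  (∀ P, IsPrimeDivisor y P → 0 ≤ Δ P) ∧ {P | IsPrimeDivisor y P ∧ Δ P ≠ 0}.Finite

/-- The `r`-canonical form `η` generates `r (K_Y + Δ)` at the centre of `Q`: its order is `- r Δ P`
along all prime divisors `P` of `Y` through this centre. -/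
def GeneratesAt {n : ℕ} (y : Fin (N + 1) → K) (Δ : Place ℂ K → ℚ) (r : ℕ)
    (η : (Fin n → Derivation ℂ K K) → K) (Q : Place ℂ K) : Prop :=
  IsPluri r η ∧ ∀ P, IsPrimeDivisor y P → Through y P Q → OrdEq P η (-(r * Δ P))

/-- The log discrepancy of `(Y, Δ)` along `Q` is `a`: a generator of `r (K_Y + Δ)` at the centre of
`Q`, `r ≥ 1`, has order `r (a - 1)` along `Q`. -/
def LogDiscrepancy (y : Fin (N + 1) → K) (n : ℕ) (Δ : Place ℂ K → ℚ) (Q : Place ℂ K) (a : ℚ) :
    Prop :=
  ∃ r : ℕ, 0 < r ∧ ∃ η : (Fin n → Derivation ℂ K K) → K, GeneratesAt y Δ r η Q ∧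
    OrdEq Q η (r * (a - 1))

/-- The pair `(Y, Δ)` is log canonical, `n` being the dimension of `Y`: for some `r ≥ 1` the divisor
`r (K_Y + Δ)` has a generator at the centre of every prime divisor `Q` over `Y`, with order at least
`- r` along `Q`. -/
def LogCanonical (y : Fin (N + 1) → K) (n : ℕ) (Δ : Place ℂ K → ℚ) : Prop :=
  ∃ r : ℕ, 0 < r ∧ ∀ Q : Place ℂ K, Divisorial n Q →
    ∃ η : (Fin n → Derivation ℂ K K) → K, GeneratesAt y Δ r η Q ∧ OrdGe Q η (-r)

/-- `ω` is a section of `m (K_Y + Δ) + j H`, `H` being the hyperplane section `y i = 0`: an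
`m`-canonical form with order at least `- m Δ P - j ord_P (y i / y l)` along the prime divisors `P` of
`Y` with centre in the chart `y l ≠ 0`. -/
def IsSection {n : ℕ} (y : Fin (N + 1) → K) (Δ : Place ℂ K → ℚ) (i : Fin (N + 1)) (m j : ℕ)
    (ω : (Fin n → Derivation ℂ K K) → K) : Prop :=
  IsPluri m ω ∧ ∀ P l, IsPrimeDivisor y P → Centred y l P →
    OrdGe P ω (-(m * Δ P) - j * P.ord (y i / y l))

/-- `K_Y + Δ` is pseudo-effective: for all `M ≥ 1` a positive multiple of `M (K_Y + Δ) + H` is
effective, `H` being a hyperplane section. -/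
def Pseudoeffective (y : Fin (N + 1) → K) (n : ℕ) (Δ : Place ℂ K → ℚ) : Prop :=
  ∃ i, y i ≠ 0 ∧ ∀ M : ℕ, 1 ≤ M → ∃ j : ℕ, 1 ≤ j ∧
    ∃ ω : (Fin n → Derivation ℂ K K) → K, ω ≠ 0 ∧ IsSection y Δ i (j * M) j ω

/-- The section `s` of `T (K_Y + Δ)` has asymptotically the smallest order at `Q`: if `H` is a
hyperplane section, then for some constant `C` the inequality
`m ord_Q (s) ≤ T ord_Q (ω) + C (j + 1)` holds for all sections `ω ≠ 0` of `m (K_Y + Δ) + j H`.
(The inequality says the same for all tuples `D` of vector fields on which `ω` is not zero.) -/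
def AsymptoticallyMinimal {n : ℕ} (y : Fin (N + 1) → K) (Δ : Place ℂ K → ℚ) (T : ℕ)
    (Q : Place ℂ K) (s : (Fin n → Derivation ℂ K K) → K) : Prop :=
  ∀ i, y i ≠ 0 → ∃ C : ℕ, ∀ (m j : ℕ) (ω : (Fin n → Derivation ℂ K K) → K),
    IsSection y Δ i m j ω → ∀ D, ω D ≠ 0 →
      (m : ℤ) * Q.ord (s D) ≤ (T : ℤ) * Q.ord (ω D) + C * (j + 1)

end models

/-- **Zariski decompositions with semiample positive part.** Let `K` be the function field of an
abelian cover of the projective `n`-space which is branched along `n + 1` hypersurfaces `F k = 0` of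
degrees `d k`, without a common point and with a log canonical sum, and let `(Y, Δ)` be a log canonical
pair, `Y` a normal projective variety with function field `K`, `Δ` an effective `ℚ`-divisor, with log
discrepancy at least `1` along the log places with zero multiplicities, and such that the log
discrepancy `1 - Δ P` of a prime divisor `P` of `Y` is at most `g` times the log discrepancy along `Q`,
if `P` and `Q` are log places and the multiplicities of `P` are not zero and `g` times those of `Q`.
If `K_Y + Δ` is pseudo-effective, then for some `T ≥ 1` there are finitely many nonzero sections of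
`T (K_Y + Δ)` such that for every prime divisor `Q` over `Y` one of them has asymptotically the
smallest order at `Q`. -/
theorem result (n R : ℕ) (hn : 1 ≤ n) (d : Fin (n + 1) → ℕ) (hd : ∀ k, 1 ≤ d k)
    (F : Fin (n + 1) → MvPolynomial (Fin (n + 1)) ℂ) (hF0 : ∀ k, F k ≠ 0)
    (hF : ∀ k, (F k).IsHomogeneous (d k)) (hN : NoCommonPoint F) (hL : LogCanonicalSum F)
    (m : Fin R → ℕ) (hm : ∀ j, 1 ≤ m j) (a : Fin R → Fin (n + 1) → ℕ)
    (hdiv : ∀ j, m j ∣ ∑ k, a j k * d k)
    (K : Type) [Field K] [Algebra ℂ K] (x : Fin (n + 1) → K) (hx0 : x 0 ≠ 0)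
    (hbas : IsTranscendenceBasis ℂ (affine x)) (z : Fin R → K)
    (hz : ∀ j, z j ^ m j = ∏ k, (aeval x (F k) / x 0 ^ d k) ^ a j k)
    (hgen : IntermediateField.adjoin ℂ (Set.range (affine x) ∪ Set.range z) = ⊤)
    (N : ℕ) (y : Fin (N + 1) → K) (hy : NormalModel y) (Δ : Place ℂ K → ℚ)
    (hΔ : Effective y Δ) (hlc : LogCanonical y n Δ)
    (h1 : ∀ Q, Divisorial n Q → IsLogPlace F d x Q → (∀ k, mult F d x Q k = 0) →
      ∀ b, LogDiscrepancy y n Δ Q b → 1 ≤ b)
    (h2 : ∀ P, IsPrimeDivisor y P → IsLogPlace F d x P → (∃ k, mult F d x P k ≠ 0) →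
      ∀ Q, Divisorial n Q → IsLogPlace F d x Q → ∀ g : ℕ, 1 ≤ g →
      (∀ k, mult F d x P k = g * mult F d x Q k) →
      ∀ b, LogDiscrepancy y n Δ Q b → 1 - Δ P ≤ g * b)
    (hps : Pseudoeffective y n Δ) :
    ∃ T : ℕ, 0 < T ∧ ∃ (N' : ℕ) (s : Fin (N' + 1) → (Fin n → Derivation ℂ K K) → K),
      (∀ i, s i ≠ 0 ∧ IsPluri T (s i) ∧ ∀ P, IsPrimeDivisor y P → OrdGe P (s i) (-(T * Δ P))) ∧
      ∀ Q : Place ℂ K, Divisorial n Q → ∃ i, AsymptoticallyMinimal y Δ T Q (s i) := by
  obtain ⟨e, rfl⟩ : ∃ e, n = e + 1 := ⟨n - 1, by omega⟩
  have hy' : Pool.Agent.Y172.NormalModel y := ⟨hy.1, hy.2.1, hy.2.2⟩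
  have hbas' : IsTranscendenceBasis ℂ (affine x) := hbas
  have hn' : Algebra.trdeg ℂ K = ((e + 1 : ℕ) : Cardinal) := by
    rw [← hbas.cardinalMk_eq_trdeg, Cardinal.mk_fin]
  obtain ⟨D0, hD0⟩ := Pool.Agent.W602.GT.exists_dual hbas'
  have hD : ∀ i j, D0 i (affine x j) = if i = j then 1 else 0 := by
    intro i j
    have h3 := congrFun (congrFun hD0 i) j
    rwa [Matrix.of_apply, Matrix.one_apply] at h3
  obtain ⟨r, hr, hlc⟩ := hlc
  have hlc' : Pool.Agent.Y172.LogCanonical y (e + 1) Δ := by
    intro Q hQ
    obtain ⟨η, h3, h4⟩ := hlc Q hQ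
    exact ⟨r, hr, η, h3.1, h3.2, h4⟩
  have hPr : Pool.Agent.J4.H19.LC.PrX F d x y Δ := by
    refine ⟨?_, ?_, ?_, ?_, ?_⟩
    · intro Q hQ _ r b hr hb
      exact Pool.Agent.J4.H19.LC.ld_lc hy' hn' hbas' hD hr hQ hb hlc'
    · intro Q hQ hQL hQ0 r b hr hb
      obtain ⟨η, h3, h4, h5⟩ := hb
      exact h1 Q hQ hQL hQ0 b ⟨r, hr, η, ⟨h3, h4⟩, h5⟩
    · intro P hP hPL hP0 Q hQ hQL g hg hPQ r b hr hb
      obtain ⟨η, h3, h4, h5⟩ := hb
      exact h2 P hP hPL hP0 Q hQ hQL g hg hPQ b ⟨r, hr, η, ⟨h3, h4⟩, h5⟩
    · exact fun P hP _ => hΔ.1 P hP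
    · refine ⟨1, fun P hP => ?_⟩
      have h3 := hΔ.1 P hP
      push_cast
      linarith
  have hCar : ∀ Q, Divisorial (e + 1) Q →
      ∃ b, Pool.Agent.J4.H19.LC.HasLD y (e + 1) Δ r Q b := by
    intro Q hQ
    obtain ⟨η, h3, h4⟩ := hlc Q hQ
    exact Pool.Agent.J4.H19.LC.ld_exists hy' hn' hbas' hD hr hQ h3.1 h3.2
  obtain ⟨T, hT, N', s, hs, h3⟩ := Pool.Agent.J4.H19.LC.main_zarP hx0 hbas hd hF hF0 hN hL hm hz
    hdiv hgen hy' hPr hr hCar hps
  exact ⟨T, hT, N', s, hs, fun Q _ => h3 Q⟩

end Pool.Agent.Results.MP_c1e25c_ag.LogPairDecomposition
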