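import Pool.Agent.J4.H19.LS.Psef

/-!
# The polytope of the pseudo-effective adjoint divisors, for log canonical pairs on models of abelian
# covers of projective space branched along log canonical hypersurfaces

Let `F k`, `k = 0, ..., n`, be forms of degrees `d k` in `n + 1` variables without a common zero such
that the pair of the projective `n`-space and the sum of the hypersurfaces `F k = 0` is log canonical
(for instance, products of the members of `n + 1` parts of a finite family of hypersurfaces with
normal crossings), and let `K` be the function field of an abelian cover of the projective space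
which is branched only along these hypersurfaces: `K` is generated by the affine coordinates
`x (b + 1) / x 0` and by roots `z j`, `z j ^ (m j) = ∏ k, (F k (x) / x 0 ^ (d k)) ^ (a j k)`, where
`m j` divides `∑ k, a j k * d k`.

A prime divisor `P` over the models of `K` has the multiplicities `mult k` along the hypersurfaces
`F k = 0`. It is a *log place* (`IsLogPlace`) if the canonical form of the projective space has the
smallest order at `P` which is possible for its multiplicities.

Let `Y` be a normal projective variety with function field `K` and `(Y, Δ i)`, `i = 1, ..., s`, log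
canonical pairs, `Δ i` effective `ℚ`-divisors, such that

1. the log discrepancy of `(Y, Δ i)` is at least `1` along the log places with zero multiplicities, and
2. `Δ i` is uniform: if `P` and `Q` are log places, `P` is a prime divisor of `Y` and the
   multiplicities of `P` are nonzero and `g ≥ 1` times the ones of `Q`, then the log discrepancy
   `1 - Δ i P` of `P` is at most `g` times the log discrepancy of `Q`.

**Theorem.** The set of the convex combinations `t` with rational coefficients for which
`K_Y + ∑ i, t i Δ i` is pseudo-effective is a rational polytope: it is the convex hull of finitely many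
rational points. For all its elements a positive multiple of `K_Y + ∑ i, t i Δ i` is linearly
equivalent to an effective divisor.

In particular, the pseudo-effective thresholds, that is, the smallest numbers `t` such that
`K_Y + (1 - t) Δ 1 + t Δ 2` is pseudo-effective, are rational, and the divisor is effective up to a
multiple for the threshold itself. If the `Δ i` are big and klt, this is a theorem of Birkar, Cascini,
Hacon and McKernan; it is a part of their proof of the termination of the minimal model program with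
scaling. Here the pairs are log canonical, and neither `Δ i` nor `K_Y + Δ i` need be big.
-/

set_option autoImplicit false

open FF MvPolynomial Pool.Agent.W602.GT

namespace Pool.Agent.Results.MP_c1e25c_ag.PseudoeffectivePolytope

/-- The affine coordinates of the projective space. -/
noncomputable def affine {n : ℕ} {K : Type} [Field K] (x : Fin (n + 1) → K) (b : Fin n) : K :=
  x b.succ / x 0

/-- The value of the form `Ω = ∑ i, ± x i * d x 0 ∧ ... ∧ d x n` (without `d x i`) on vector fields:
the determinant with the rows `x`, `D 0 x`, ..., `D (n - 1) x`. -/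
noncomputable def form {n : ℕ} {K : Type} [Field K] [Algebra ℂ K] (x : Fin (n + 1) → K)
    (D : Fin n → Derivation ℂ K K) : K :=
  (Matrix.of fun i j : Fin (n + 1) => (Fin.cases (x j) (fun l => D l (x j)) i : K)).det

/-- The pair of the projective `n`-space and the sum of the hypersurfaces `F k = 0` is log
canonical: for all prime divisors `P` over the projective space (divisorial places `P` of its function
field `K`), and homogeneous coordinates `x` which are regular and not all zero at `P`, the canonical
form of the projective space vanishes along `P` at least to the order `∑ k, P.ord (F k (x)) - 1`. -/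
def LogCanonicalSum {n : ℕ} (F : Fin (n + 1) → MvPolynomial (Fin (n + 1)) ℂ) : Prop :=
  ∀ (K : Type) [Field K] [Algebra ℂ K] (x : Fin (n + 1) → K), x 0 ≠ 0 →
    IsTranscendenceBasis ℂ (affine x) → IntermediateField.adjoin ℂ (Set.range (affine x)) = ⊤ →
    ∀ P : Place ℂ K, Divisorial n P → (∀ l, 0 ≤ P.ord (x l)) → (∃ l, P.ord (x l) = 0) →
    ∀ D : Fin n → Derivation ℂ K K, (∀ c, DerReg P (D c)) →
      form x D = 0 ∨ ∑ k, P.ord (aeval x (F k)) - 1 ≤ P.ord (form x D)

/-- The hypersurfaces `F k = 0` have no common point. -/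
def NoCommonPoint {n : ℕ} (F : Fin (n + 1) → MvPolynomial (Fin (n + 1)) ℂ) : Prop :=
  ∀ x : Fin (n + 1) → ℂ, x ≠ 0 → ∃ k, eval x (F k) ≠ 0

section places

variable {n : ℕ} {K : Type} [Field K] [Algebra ℂ K]

/-- The smallest order of the homogeneous coordinates at `P`. -/
noncomputable def minOrder (x : Fin (n + 1) → K) (P : Place ℂ K) : ℤ :=
  Finset.univ.inf' Finset.univ_nonempty fun l => P.ord (x l)

/-- The multiplicity of the divisor `P` along the hypersurface `F k = 0`: the order of `F k (x)`, if
the homogeneous coordinates `x` are chosen such that their smallest order is zero. -/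
noncomputable def mult (F : Fin (n + 1) → MvPolynomial (Fin (n + 1)) ℂ) (d : Fin (n + 1) → ℕ)
    (x : Fin (n + 1) → K) (P : Place ℂ K) (k : Fin (n + 1)) : ℤ :=
  P.ord (aeval x (F k)) - d k * minOrder x P

/-- `P` is a log place: there are vector fields which are regular at `P` and on which the canonical
form `Ω` of the projective space has the smallest order which is possible for the given
multiplicities (if the coordinates are chosen such that `minOrder x P = 0`: the sum of the
multiplicities minus one, and zero if the multiplicities are zero). -/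
def IsLogPlace (F : Fin (n + 1) → MvPolynomial (Fin (n + 1)) ℂ) (d : Fin (n + 1) → ℕ)
    (x : Fin (n + 1) → K) (P : Place ℂ K) : Prop :=
  ∃ E : Fin n → Derivation ℂ K K, (∀ i, DerReg P (E i)) ∧ form x E ≠ 0 ∧
    P.ord (form x E) + (if ∀ k, mult F d x P k = 0 then 0 else 1) ≤
      (n + 1) * minOrder x P + ∑ k, mult F d x P k

end places

section models

variable {K : Type} [Field K] [Algebra ℂ K] {N : ℕ}

/-- The coordinate ring of the affine chart `y j ≠ 0` of the projective variety with generic point
`y`. -/
def chart (y : Fin (N + 1) → K) (j : Fin (N + 1)) : Subalgebra ℂ K :=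
  Algebra.adjoin ℂ (Set.range fun i => y i / y j)

/-- `y` is the generic point, in homogeneous coordinates, of a normal projective variety `Y` in the
projective `N`-space with function field `K`. -/
def NormalModel (y : Fin (N + 1) → K) : Prop :=
  (∃ j, y j ≠ 0) ∧
  (∀ j, y j ≠ 0 → IntermediateField.adjoin ℂ (Set.range fun i => y i / y j) = ⊤) ∧
  ∀ j, y j ≠ 0 → IsIntegrallyClosed (chart y j)

/-- The centre of the place `P` on `Y` is in the chart `y j ≠ 0`. -/
def Centred (y : Fin (N + 1) → K) (j : Fin (N + 1)) (P : Place ℂ K) : Prop :=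
  y j ≠ 0 ∧ ∀ i, P.Reg (y i / y j)

/-- The local ring of `Y` at the centre of the place `P`: the quotients `a / b` of elements of the
coordinate ring of a chart which contains the centre, such that `b` is not zero at the centre. -/
def localRing (y : Fin (N + 1) → K) (P : Place ℂ K) : Set K :=
  {f | ∃ j, Centred y j P ∧ ∃ a ∈ chart y j, ∃ b ∈ chart y j, b ≠ 0 ∧ P.ord b = 0 ∧ f * b = a}

/-- `P` is a prime divisor on `Y`: the valuation ring of `P` is the local ring of `Y` at the centre
of `P`. -/
def IsPrimeDivisor (y : Fin (N + 1) → K) (P : Place ℂ K) : Prop :=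
  ∀ f, P.Reg f → f ∈ localRing y P

/-- The prime divisor `P` of `Y` contains the centre of the place `Q` on `Y`. -/
def Through (y : Fin (N + 1) → K) (P Q : Place ℂ K) : Prop :=
  ∀ f ∈ localRing y Q, P.Reg f

/-- The order of the form `ω` along `P` is at least `c`: on vector fields which are regular at `P`
its values have order at least `c`. -/
def OrdGe {n : ℕ} (P : Place ℂ K) (ω : (Fin n → Derivation ℂ K K) → K) (c : ℚ) : Prop :=
  ∀ E : Fin n → Derivation ℂ K K, (∀ i, DerReg P (E i)) → ω E = 0 ∨ c ≤ P.ord (ω E)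

/-- The order of the form `ω` along `P` is `c`. -/
def OrdEq {n : ℕ} (P : Place ℂ K) (ω : (Fin n → Derivation ℂ K K) → K) (c : ℚ) : Prop :=
  OrdGe P ω c ∧ ∃ E : Fin n → Derivation ℂ K K, (∀ i, DerReg P (E i)) ∧ ω E ≠ 0 ∧ P.ord (ω E) = c

/-- `Δ` is an effective `ℚ`-divisor on `Y`; `Δ P` is the coefficient of the prime divisor `P` (the
values of `Δ` at the other places are irrelevant). -/
def Effective (y : Fin (N + 1) → K) (Δ : Place ℂ K → ℚ) : Prop :=
  (∀ P, IsPrimeDivisor y P → 0 ≤ Δ P) ∧ {P | IsPrimeDivisor y P ∧ Δ P ≠ 0}.Finite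

/-- The `r`-canonical form `η` generates `r (K_Y + Δ)` at the centre of `Q`: its order is `- r Δ P`
along all prime divisors `P` of `Y` through this centre. -/
def GeneratesAt {n : ℕ} (y : Fin (N + 1) → K) (Δ : Place ℂ K → ℚ) (r : ℕ)
    (η : (Fin n → Derivation ℂ K K) → K) (Q : Place ℂ K) : Prop :=
  IsPluri r η ∧ ∀ P, IsPrimeDivisor y P → Through y P Q → OrdEq P η (-(r * Δ P))

/-- The log discrepancy of `(Y, Δ)` along `Q` is `a`: a generator of `r (K_Y + Δ)` at the centre of
`Q`, `r ≥ 1`, has order `r (a - 1)` along `Q`. -/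
def LogDiscrepancy (y : Fin (N + 1) → K) (n : ℕ) (Δ : Place ℂ K → ℚ) (Q : Place ℂ K) (a : ℚ) :
    Prop :=
  ∃ r : ℕ, 0 < r ∧ ∃ η : (Fin n → Derivation ℂ K K) → K, GeneratesAt y Δ r η Q ∧
    OrdEq Q η (r * (a - 1))

/-- The pair `(Y, Δ)` is log canonical, `n` being the dimension of `Y`: for some `r ≥ 1` the divisor
`r (K_Y + Δ)` has a generator at the centre of every prime divisor `Q` over `Y`, with order at least
`- r` along `Q`. -/
def LogCanonical (y : Fin (N + 1) → K) (n : ℕ) (Δ : Place ℂ K → ℚ) : Prop :=
  ∃ r : ℕ, 0 < r ∧ ∀ Q : Place ℂ K, Divisorial n Q →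
    ∃ η : (Fin n → Derivation ℂ K K) → K, GeneratesAt y Δ r η Q ∧ OrdGe Q η (-r)

/-- `ω` is a section of `m (K_Y + Δ) + j H`, `H` being the hyperplane section `y i = 0`: an
`m`-canonical form with order at least `- m Δ P - j ord_P (y i / y l)` along the prime divisors `P` of
`Y` with centre in the chart `y l ≠ 0`. -/
def IsSection {n : ℕ} (y : Fin (N + 1) → K) (Δ : Place ℂ K → ℚ) (i : Fin (N + 1)) (m j : ℕ)
    (ω : (Fin n → Derivation ℂ K K) → K) : Prop :=
  IsPluri m ω ∧ ∀ P l, IsPrimeDivisor y P → Centred y l P →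
    OrdGe P ω (-(m * Δ P) - j * P.ord (y i / y l))

/-- `K_Y + Δ` is pseudo-effective: for all `M ≥ 1` a positive multiple of `M (K_Y + Δ) + H` is
effective, `H` being a hyperplane section. -/
def Pseudoeffective (y : Fin (N + 1) → K) (n : ℕ) (Δ : Place ℂ K → ℚ) : Prop :=
  ∃ i, y i ≠ 0 ∧ ∀ M : ℕ, 1 ≤ M → ∃ j : ℕ, 1 ≤ j ∧
    ∃ ω : (Fin n → Derivation ℂ K K) → K, ω ≠ 0 ∧ IsSection y Δ i (j * M) j ω

/-- A positive multiple of `K_Y + Δ` is linearly equivalent to an effective divisor: for some `r ≥ 1`
there is an `r`-canonical form `ω ≠ 0` with order at least `- r Δ P` along all prime divisors `P` of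
`Y`. -/
def QEffective (y : Fin (N + 1) → K) (n : ℕ) (Δ : Place ℂ K → ℚ) : Prop :=
  ∃ r : ℕ, 0 < r ∧ ∃ ω : (Fin n → Derivation ℂ K K) → K, ω ≠ 0 ∧ IsPluri r ω ∧
    ∀ P, IsPrimeDivisor y P → OrdGe P ω (-(r * Δ P))

/-- The divisor `∑ i, t i Δ i`. -/
def combination {s : ℕ} (Δ : Fin s → Place ℂ K → ℚ) (t : Fin s → ℚ) (P : Place ℂ K) : ℚ :=
  ∑ i, t i * Δ i P

end models

/-- **The pseudo-effective polytope.** Let `K` be the function field of an abelian cover of the
projective `n`-space which is branched along `n + 1` hypersurfaces `F k = 0` of degrees `d k`, without a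
common point and with a log canonical sum, let `Y` be a normal projective variety with function field
`K`, and let `(Y, Δ i)` be log canonical pairs, `Δ i` an effective `ℚ`-divisor, with log discrepancy at
least `1` along the log places with zero multiplicities, and such that the log discrepancy
`1 - Δ i P` of a prime divisor `P` of `Y` is at most `g` times the log discrepancy along `Q`, if `P` and
`Q` are log places and the multiplicities of `P` are not zero and `g` times those of `Q`. Then the set
of the rational convex combinations `t` with `K_Y + ∑ i, t i Δ i` pseudo-effective is the convex hull of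
finitely many rational points, and for these `t` a multiple of `K_Y + ∑ i, t i Δ i` is effective. -/
theorem result (n R : ℕ) (hn : 1 ≤ n) (d : Fin (n + 1) → ℕ) (hd : ∀ k, 1 ≤ d k)
    (F : Fin (n + 1) → MvPolynomial (Fin (n + 1)) ℂ) (hF0 : ∀ k, F k ≠ 0)
    (hF : ∀ k, (F k).IsHomogeneous (d k)) (hN : NoCommonPoint F) (hL : LogCanonicalSum F)
    (m : Fin R → ℕ) (hm : ∀ j, 1 ≤ m j) (a : Fin R → Fin (n + 1) → ℕ)
    (hdiv : ∀ j, m j ∣ ∑ k, a j k * d k)
    (K : Type) [Field K] [Algebra ℂ K] (x : Fin (n + 1) → K) (hx0 : x 0 ≠ 0)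
    (hbas : IsTranscendenceBasis ℂ (affine x)) (z : Fin R → K)
    (hz : ∀ j, z j ^ m j = ∏ k, (aeval x (F k) / x 0 ^ d k) ^ a j k)
    (hgen : IntermediateField.adjoin ℂ (Set.range (affine x) ∪ Set.range z) = ⊤)
    (N : ℕ) (y : Fin (N + 1) → K) (hy : NormalModel y) (s : ℕ) (Δ : Fin s → Place ℂ K → ℚ)
    (hΔ : ∀ i, Effective y (Δ i)) (hlc : ∀ i, LogCanonical y n (Δ i))
    (h1 : ∀ i, ∀ Q, Divisorial n Q → IsLogPlace F d x Q → (∀ k, mult F d x Q k = 0) →
      ∀ b, LogDiscrepancy y n (Δ i) Q b → 1 ≤ b)
    (h2 : ∀ i, ∀ P, IsPrimeDivisor y P → IsLogPlace F d x P → (∃ k, mult F d x P k ≠ 0) →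
      ∀ Q, Divisorial n Q → IsLogPlace F d x Q → ∀ g : ℕ, 1 ≤ g →
      (∀ k, mult F d x P k = g * mult F d x Q k) →
      ∀ b, LogDiscrepancy y n (Δ i) Q b → 1 - Δ i P ≤ g * b) :
    ∃ E : Finset (Fin s → ℚ), (∀ p ∈ E, (∀ i, 0 ≤ p i) ∧ ∑ i, p i = 1) ∧
      ∀ t : Fin s → ℚ, (∀ i, 0 ≤ t i) → ∑ i, t i = 1 →
        (Pseudoeffective y n (combination Δ t) ↔ t ∈ convexHull ℚ (E : Set (Fin s → ℚ))) ∧
        (Pseudoeffective y n (combination Δ t) → QEffective y n (combination Δ t)) := by
  obtain ⟨e, rfl⟩ : ∃ e, n = e + 1 := ⟨n - 1, by omega⟩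
  have hy' : Pool.Agent.Y172.NormalModel y := ⟨hy.1, hy.2.1, hy.2.2⟩
  have hbas' : IsTranscendenceBasis ℂ (affine x) := hbas
  have hn' : Algebra.trdeg ℂ K = ((e + 1 : ℕ) : Cardinal) := by
    rw [← hbas.cardinalMk_eq_trdeg, Cardinal.mk_fin]
  obtain ⟨D0, hD0⟩ := Pool.Agent.W602.GT.exists_dual hbas'
  have hD : ∀ i j, D0 i (affine x j) = if i = j then 1 else 0 := by
    intro i j
    have h3 := congrFun (congrFun hD0 i) j
    rwa [Matrix.of_apply, Matrix.one_apply] at h3
  have hPr : ∀ i, Pool.Agent.J4.H19.LC.PrX F d x y (Δ i) := by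
    intro i
    obtain ⟨r, hr, hlc⟩ := hlc i
    have hlc' : Pool.Agent.Y172.LogCanonical y (e + 1) (Δ i) := by
      intro Q hQ
      obtain ⟨η, h3, h4⟩ := hlc Q hQ
      exact ⟨r, hr, η, h3.1, h3.2, h4⟩
    refine ⟨?_, ?_, ?_, ?_, ?_⟩
    · intro Q hQ _ r b hr hb
      exact Pool.Agent.J4.H19.LC.ld_lc hy' hn' hbas' hD hr hQ hb hlc'
    · intro Q hQ hQL hQ0 r b hr hb
      obtain ⟨η, h3, h4, h5⟩ := hb
      exact h1 i Q hQ hQL hQ0 b ⟨r, hr, η, ⟨h3, h4⟩, h5⟩
    · intro P hP hPL hP0 Q hQ hQL g hg hPQ r b hr hb
      obtain ⟨η, h3, h4, h5⟩ := hb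
      exact h2 i P hP hPL hP0 Q hQ hQL g hg hPQ b ⟨r, hr, η, ⟨h3, h4⟩, h5⟩
    · exact fun P hP _ => (hΔ i).1 P hP
    · refine ⟨1, fun P hP => ?_⟩
      have h3 := (hΔ i).1 P hP
      push_cast
      linarith
  have hCar : ∀ i, ∃ r : ℕ, 0 < r ∧ ∀ Q, Divisorial (e + 1) Q →
      ∃ b, Pool.Agent.J4.H19.LC.HasLD y (e + 1) (Δ i) r Q b := by
    intro i
    obtain ⟨r, hr, hlc⟩ := hlc i
    refine ⟨r, hr, fun Q hQ => ?_⟩
    obtain ⟨η, h3, h4⟩ := hlc Q hQ
    exact Pool.Agent.J4.H19.LC.ld_exists hy' hn' hbas' hD hr hQ h3.1 h3.2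
  exact Pool.Agent.J4.H19.LC.main_psef hx0 hbas hd hF hF0 hN hL hm hz hdiv hgen hy' hPr hCar

end Pool.Agent.Results.MP_c1e25c_ag.PseudoeffectivePolytope
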