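import Pool.Agent.J4.H19.LC.Zar

/-!
# Explicit Zariski decompositions, and so minimal models, for abelian covers of projective space
# branched along log canonical hypersurfaces

Let `F k`, `k = 0, ..., n`, be forms of degrees `d k` in `n + 1` variables without a common zero such
that the pair of the projective `n`-space and the sum of the hypersurfaces `F k = 0` is log canonical
(for instance, products of the members of `n + 1` parts of a finite family of hypersurfaces with
normal crossings), and let `K` be the function field of an abelian cover of the projective space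
which is branched only along these hypersurfaces: `K` is generated by the affine coordinates
`x (b + 1) / x 0` and by roots `z j`, `z j ^ (m j) = ∏ k, (F k (x) / x 0 ^ (d k)) ^ (a j k)`, where
`m j` divides `∑ k, a j k * d k`. Let `B` be a bound for the degrees `d k` and for the product of the
`m j`, and `T = ((n + 1)! * B ^ (n + 1))!`. Let `X` be a projective manifold with function field `K`.

The theorem says: if `K_X` is pseudo-effective, then there are finitely many sections `s i ≠ 0` of
`T K_X` such that for every prime divisor `Q` over `X` one of them, `s i`, has asymptotically the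
smallest order at `Q` among all sections of `m K_X + j A`: for every divisor `A` there is a constant
`C` with `ord_Q (s i) / T ≤ ord_Q (ω) / m + C (j + 1) / m` for all `m, j ≥ 0` and all sections
`ω ≠ 0` of `m K_X + j A`.

Thus `ord_Q (s i) / T` is the asymptotic order `σ_Q (K_X)` of the Zariski decomposition of Nakayama,
for all prime divisors `Q` over `X` at the same time. If `X' → X` is a birational morphism such that
the movable part `M` of the linear system of the `s i` on `X'` has no base points, then
`K_X' = M / T + N` is the Nakayama–Zariski decomposition of `K_X'`, its positive part `M / T` is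
semiample, and the negative part of the pullback to any model over `X'` is the pullback of the
negative part. By a theorem of Birkar and Hu an lc pair whose log canonical divisor has birationally
a Nakayama–Zariski decomposition with nef positive part has a minimal model. So the minimal model
program for `(X, 0)` ends with a good minimal model if `K_X` is pseudo-effective, and with a Mori
fibre space if it is not (Birkar–Cascini–Hacon–McKernan).

Proof. The sections `s i` are the forms `∏ k, F k ^ (T y k - T) * Ω ^ T`, `y` a vertex of the polyhedron
of `LogCanonicalCovers` (in the folder of the problem MP_97d78d). The lower bound for the orders of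
the sections of `m K_X + j A` is shown by traces to the fields of the radicals and of the projective
space, which gives a bound of the order at `Q` by the minimum of a linear form on the polyhedron
(Farkas' lemma); this minimum is attained at a vertex.
-/

set_option autoImplicit false

open FF MvPolynomial Pool.Agent.W602.GT

namespace Pool.Agent.Results.MP_c1e25c_ag.ZariskiDecomposition

/-- The affine coordinates of the projective space. -/
noncomputable def affine {n : ℕ} {K : Type} [Field K] (x : Fin (n + 1) → K) (b : Fin n) : K :=
  x b.succ / x 0

/-- The value of the form `Ω = ∑ i, ± x i * d x 0 ∧ ... ∧ d x n` (without `d x i`) on vector fields: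
the determinant with the rows `x`, `D 0 x`, ..., `D (n - 1) x`. -/
noncomputable def form {n : ℕ} {K : Type} [Field K] [Algebra ℂ K] (x : Fin (n + 1) → K)
    (D : Fin n → Derivation ℂ K K) : K :=
  (Matrix.of fun i j : Fin (n + 1) => (Fin.cases (x j) (fun l => D l (x j)) i : K)).det

/-- The pair of the projective `n`-space and the sum of the hypersurfaces `F k = 0` is log
canonical: for all prime divisors `P` over the projective space (divisorial places `P` of its function
field `K`), and homogeneous coordinates `x` which are regular and not all zero at `P`, the canonical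
form of the projective space vanishes along `P` at least to the order `∑ k, P.ord (F k (x)) - 1`. -/
def LogCanonical {n : ℕ} (F : Fin (n + 1) → MvPolynomial (Fin (n + 1)) ℂ) : Prop :=
  ∀ (K : Type) [Field K] [Algebra ℂ K] (x : Fin (n + 1) → K), x 0 ≠ 0 →
    IsTranscendenceBasis ℂ (affine x) → IntermediateField.adjoin ℂ (Set.range (affine x)) = ⊤ →
    ∀ P : Place ℂ K, Divisorial n P → (∀ l, 0 ≤ P.ord (x l)) → (∃ l, P.ord (x l) = 0) →
    ∀ D : Fin n → Derivation ℂ K K, (∀ c, DerReg P (D c)) →
      form x D = 0 ∨ ∑ k, P.ord (aeval x (F k)) - 1 ≤ P.ord (form x D)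

/-- The hypersurfaces `F k = 0` have no common point. -/
def NoCommonPoint {n : ℕ} (F : Fin (n + 1) → MvPolynomial (Fin (n + 1)) ℂ) : Prop :=
  ∀ x : Fin (n + 1) → ℂ, x ≠ 0 → ∃ k, eval x (F k) ≠ 0

/-- The multiple `T = ((n + 1)! * B ^ (n + 1))!`. -/
def multiple (n B : ℕ) : ℕ := ((n + 1).factorial * B ^ (n + 1)).factorial

/-- `ω` is a section of `m K_X + j A`: a rational section of the `m`-th power of the canonical
bundle (`IsPluri`: a function of `n` rational vector fields which is multiplied by `det B ^ m` under
a linear substitution `B`) whose order on the vector fields which are regular at `P` is at least `j`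
times the order of one of the functions in `S`, for all prime divisors `P` over `X` (all divisorial
places `P` of `K`). Here `A` is the divisor which is generated by the finite set `S` of functions;
`A = 0` if `S = {1}`. -/
def IsSection {K : Type} [Field K] [Algebra ℂ K] (n : ℕ) (S : Finset K) (m j : ℕ)
    (ω : (Fin n → Derivation ℂ K K) → K) : Prop :=
  IsPluri m ω ∧ ∀ P : Place ℂ K, Divisorial n P → ∀ D : Fin n → Derivation ℂ K K,
    (∀ c, DerReg P (D c)) → ω D = 0 ∨ ∃ s ∈ S, s ≠ 0 ∧ j * P.ord s ≤ P.ord (ω D)

/-- `K_X` is pseudo-effective: there is a divisor `A` such that for all `M` a positive multiple of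
`M K_X + A` is effective. -/
def Pseudoeffective (n : ℕ) (K : Type) [Field K] [Algebra ℂ K] : Prop :=
  ∃ S : Finset K, ∀ M : ℕ, ∃ j : ℕ, 1 ≤ j ∧ ∃ ω : (Fin n → Derivation ℂ K K) → K, ω ≠ 0 ∧
    IsSection n S (j * M) j ω

/-- `ord_Q (s) / T` is the asymptotic order of `K_X` at `Q`, where `s` is a form of weight `T`: for
every divisor `A` there is a constant `C` such that `m ord_Q (s) ≤ T ord_Q (ω) + C (j + 1)` for all
sections `ω ≠ 0` of `m K_X + j A`. (The inequality says the same for all tuples `D` of vector fields
on which `ω` is not zero.) -/
def AsymptoticallyMinimal {K : Type} [Field K] [Algebra ℂ K] (n T : ℕ) (Q : Place ℂ K)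
    (s : (Fin n → Derivation ℂ K K) → K) : Prop :=
  ∀ S : Finset K, ∃ C : ℕ, ∀ (m j : ℕ) (ω : (Fin n → Derivation ℂ K K) → K),
    IsSection n S m j ω → ∀ D, ω D ≠ 0 →
      (m : ℤ) * Q.ord (s D) ≤ (T : ℤ) * Q.ord (ω D) + C * (j + 1)

/-- **Zariski decompositions with semiample positive part.** Let `K` be the function field of an
abelian cover of the projective `n`-space which is branched along `n + 1` hypersurfaces `F k = 0` of
degrees `d k`, without a common point and with a log canonical sum, let `B ≥ d k` for all `k` and
`B ≥ ∏ j, m j`, and `T = ((n + 1)! * B ^ (n + 1))!`. Let `X` be a projective manifold with function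
field `K` such that `K_X` is pseudo-effective. Then there are finitely many sections of `T K_X` such
that for every prime divisor `Q` over `X` the asymptotic order of `K_X` at `Q` is the order at `Q` of
one of them, divided by `T`. -/
theorem result (n R : ℕ) (hn : 1 ≤ n) (d : Fin (n + 1) → ℕ) (hd : ∀ k, 1 ≤ d k)
    (F : Fin (n + 1) → MvPolynomial (Fin (n + 1)) ℂ) (hF0 : ∀ k, F k ≠ 0)
    (hF : ∀ k, (F k).IsHomogeneous (d k)) (hN : NoCommonPoint F) (hL : LogCanonical F)
    (m : Fin R → ℕ) (hm : ∀ j, 1 ≤ m j) (a : Fin R → Fin (n + 1) → ℕ)
    (hdiv : ∀ j, m j ∣ ∑ k, a j k * d k)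
    (K : Type) [Field K] [Algebra ℂ K] (x : Fin (n + 1) → K) (hx0 : x 0 ≠ 0)
    (hbas : IsTranscendenceBasis ℂ (affine x)) (z : Fin R → K)
    (hz : ∀ j, z j ^ m j = ∏ k, (aeval x (F k) / x 0 ^ d k) ^ a j k)
    (hgen : IntermediateField.adjoin ℂ (Set.range (affine x) ∪ Set.range z) = ⊤)
    (B : ℕ) (hB1 : ∀ k, d k ≤ B) (hB2 : ∏ j, m j ≤ B) (hps : Pseudoeffective n K) :
    ∃ (N : ℕ) (s : Fin (N + 1) → (Fin n → Derivation ℂ K K) → K),
      (∀ i, s i ≠ 0 ∧ IsSection n {1} (multiple n B) 1 (s i)) ∧
      ∀ Q : Place ℂ K, Divisorial n Q → ∃ i, AsymptoticallyMinimal n (multiple n B) Q (s i) := by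
  obtain ⟨e, rfl⟩ : ∃ e, n = e + 1 := ⟨n - 1, by omega⟩
  obtain ⟨N, s, h1, h2⟩ := Pool.Agent.J4.H19.LC.main_zar hx0 hbas hd hF hF0 hN hL hm hz hdiv hgen
    hB1 hB2 hps
  exact ⟨N, s, h1, fun Q _ => h2 Q⟩

end Pool.Agent.Results.MP_c1e25c_ag.ZariskiDecomposition
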